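import Pool.Agent.Helper6.OB.Goals

/-! Project OB, packet OB-DT0 (helper79). -/

set_option autoImplicit false

namespace Pool.Agent.Helper79.OB

open Pool.Agent.Helper6.CS Pool.Agent.Helper6.OB
open Pool.Agent.Helper41.CS (over_app)

set_option synthInstance.maxSize 1000000000

theorem t_DT0 : Pool.Agent.Helper6.OB.G_DT0 := by
  intro hSEQ M _ a b f H g G hab hSt F S U hB v v' hv hv' heq i hi c c' hP
  have hi0 : i = 0 := Nat.le_zero.1 hi
  subst hi0
  obtain ⟨hc, hc'⟩ := hP
  obtain ⟨_, _, h3, h4, h5⟩ := hSEQ M a b (nH g H) _ F S U hab hB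
  have key : ∀ w z : Wd M, Over b w → Over a z →
      f (wv a F (w ++ z) ++ S (w ++ z).len) = g (wv a F w) := by
    intro w z hw hz
    have h6 := (hB.gd (w ++ z).len).2 (wv a F (w ++ z))
      (h3 _ (over_app hw (Over.mono hab hz))) (le_of_eq (h4 _))
    have h7 : f (wv a F (w ++ z) ++ S (w ++ z).len) = g (wv a F (w ++ z)) := h6.1
    rw [h7]
    exact (pr_inj (h5 hSt w z hw hz)).1
  rw [key v c hv hc, key v' c' hv' hc']
  exact (pr_inj heq).1

end Pool.Agent.Helper79.OB
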