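import Pool.Agent.Helper74.OB.FAR

/-!
Project OB: packets UW and NAT.
-/

namespace Pool.Agent.Helper79.OB

open Pool.Agent.Helper73.OB

theorem uw_cons {S : Type} (p : Bit → S) (δ : Bit) (k : ℕ) (z : Bit) :
    uw p δ (k + 1) z = p z :: uw p δ k (z + δ) := by
  rw [Pool.Agent.Helper74.OB.uw_eq, Pool.Agent.Helper74.OB.uw_eq, List.range_succ_eq_map,
    List.map_cons, List.map_map]
  congr 1
  · simp
  · apply List.map_congr_left
    intro j _
    simp only [Function.comp_apply, Nat.succ_eq_add_one, Nat.cast_add, Nat.cast_one]
    congr 1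
    ring

theorem uw_snoc {S : Type} (p : Bit → S) (δ : Bit) (k : ℕ) (z : Bit) :
    uw p δ (k + 1) z = uw p δ k z ++ [p (z + (k : Bit) * δ)] := by
  rw [Pool.Agent.Helper74.OB.uw_eq, Pool.Agent.Helper74.OB.uw_eq, List.range_succ, List.map_append]
  rfl

theorem uw : S_UW := by
  intro S β p δ hF
  have h2 : ∀ x : Bit, x + x = 0 := by decide
  have hlen : ∀ k z, (Pool.Agent.Helper73.OB.uw p δ k z).length = k := by
    intro k z
    exact Pool.Agent.Helper74.OB.uw_length p δ k z
  refine ⟨?_, uw_cons p δ, uw_snoc p δ, ?_, ?_⟩
  · intro k z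
    refine ⟨?_, hlen k z⟩
    induction k generalizing z with
    | zero => exact List.isChain_nil
    | succ k ih =>
      rw [uw_cons]
      cases k with
      | zero => exact List.isChain_singleton _
      | succ k =>
        have h := ih (z + δ)
        rw [uw_cons] at h ⊢
        refine List.isChain_cons_cons.2 ⟨?_, h⟩
        rw [hF.bp]
        intro hc
        have := hF.inj hc
        have h3 : ∀ a b : Bit, a + b = a + 1 + b → False := by decide
        exact h3 z δ this
  · intro k z
    induction k generalizing z with
    | zero => rfl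
    | succ k ih =>
      rw [uw_snoc, invw_append, ih, uw_cons]
      show invw β [p (z + (k : Bit) * δ)] ++ _ = _
      have h3 : invw β [p (z + (k : Bit) * δ)] = [p (z + 1 + ((k + 1 : ℕ) : Bit) * δ)] := by
        unfold invw
        simp only [List.map_cons, List.map_nil, List.reverse_cons, List.reverse_nil, List.nil_append]
        rw [hF.bp]
        congr 2
        push_cast
        ring
      have h4 : z + 1 + ((k + 1 : ℕ) : Bit) * δ + δ = z + 1 + (k : Bit) * δ := by
        push_cast
        have := h2 δ
        linear_combination this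
      rw [h3, h4]
      rfl
  · intro k k' z z' hk h
    have h3 := congrArg List.length h
    rw [hlen, hlen] at h3
    subst h3
    refine ⟨rfl, ?_⟩
    obtain ⟨j, rfl⟩ : ∃ j, k = j + 1 := ⟨k - 1, by omega⟩
    rw [uw_cons, uw_cons] at h
    have h4 := (List.cons_eq_cons.1 h).1
    exact hF.inj h4

end Pool.Agent.Helper79.OB
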