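import Pool.Agent.Helper25.OB.BLK
import Pool.Agent.Helper79.OB.UW

/-!
Project OB: packet BIT.
-/

namespace Pool.Agent.Helper79.OB

open Pool.Agent.Helper73.OB

theorem bit_pass {S X : Type} (p : Bit → S) (δ : Bit) (f : S → X → X) (M : X → Bool)
    (V : X → unitInterval) (o : X → Bit → Bit) (x : X) (z : Bit) (hM : M x = false)
    (hV : V (pfar p δ f M x z) ≠ V (pnear p δ f M x z)) :
    bitAt p δ f M V o x (z + 1) = bitAt p δ f M V o x z + 1 := by
  have h2 : z + 1 + 1 = z := by
    have : ∀ z : Bit, z + 1 + 1 = z := by decide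
    exact this z
  have hn : ∀ t, pnear p δ f M x t = pfar p δ f M x (t + 1) := by
    intro t; unfold pnear; rw [hM]; rfl
  have hs : ∀ t, snear p δ f M x t = sfar p δ f M x (t + 1) := by
    intro t; unfold snear; rw [hM]; rfl
  have hk : ∀ t, knear p δ f M x t = kfar p δ f M x (t + 1) := by
    intro t; unfold knear; rw [hM]; rfl
  unfold bitAt
  rw [hn (z + 1), hs (z + 1), hk (z + 1), h2, hn z, hs z, hk z]
  rw [hn z] at hV
  have hd : δ + δ = 0 := by
    have : ∀ z : Bit, z + z = 0 := by decide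
    exact this δ
  have h11 : (1 : Bit) + 1 = 0 := by decide
  rcases lt_or_gt_of_ne hV with h | h
  · rw [if_neg (not_lt.2 h.le), if_pos h]
    linear_combination hd
  · rw [if_pos h, if_neg (not_lt.2 h.le)]
    linear_combination (-1 : Bit) * hd - h11

theorem bit : S_BIT := by
  intro S X β p δ hF f hf M V o x hex hV z
  have hd : δ + δ = 0 := by
    have : ∀ z : Bit, z + z = 0 := by decide
    exact this δ
  have h11 : (1 : Bit) + 1 = 0 := by decide
  obtain ⟨⟨h1, h2, h3, h4, h5, h6⟩, -⟩ :=
    Pool.Agent.Helper25.OB.blk uw S X β p δ hF f hf M x hex z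
  have hVz := hV z
  have hedge : bitAt p δ f M V o (f (p z) x) (z + 1 + δ) = bitAt p δ f M V o x z + δ := by
    unfold bitAt
    rw [h1, h2, h3, h4, h5, ← h6]
    push_cast
    rcases lt_or_gt_of_ne hVz with h | h
    · rw [if_neg (not_lt.2 h.le), if_pos h]
      linear_combination (δ + 1) * h11
    · rw [if_pos h, if_neg (not_lt.2 h.le)]
      linear_combination -(δ + 1) * h11 - hd
  refine ⟨hedge, fun hM => bit_pass p δ f M V o x z hM hVz, fun hM => ?_⟩
  have h7 : V (pfar p δ f M (f (p z) x) (z + 1 + δ)) ≠ V (pnear p δ f M (f (p z) x) (z + 1 + δ)) := by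
    rw [h1, h4]
    exact hVz.symm
  have h8 := bit_pass p δ f M V o (f (p z) x) (z + 1 + δ) hM h7
  have h9 : z + 1 + δ + 1 = z + δ := by linear_combination h11
  rw [h9] at h8
  rw [h8, hedge]

end Pool.Agent.Helper79.OB
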