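import Pool.Agent.Helper73.OB.GoalsB

/-!
Project OB: packets LCS and P1.
-/

namespace Pool.Agent.Helper79.OB

open Pool.Agent.Helper73.OB

theorem lcs : S_LCS := by
  intro a ρ C hρ ha hc hC k
  rcases hρ.eq_or_lt with h0 | hpos
  · subst h0
    rcases k with _ | k
    · simp
    · have := hC (k + 1)
      simp only [ne_eq, Nat.add_eq_zero_iff, one_ne_zero, and_false, not_false_eq_true, zero_pow,
        mul_zero, zero_mul] at this ⊢
      exact this
  · let b : ℕ → ℝ := fun k => a k / ρ ^ k
    have hb0 : ∀ k, 0 ≤ b k := fun k => div_nonneg (ha k) (pow_nonneg hρ k)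
    have hbC : ∀ k, b k ≤ C := fun k => by
      show a k / ρ ^ k ≤ C
      rw [div_le_iff₀ (pow_pos hpos k)]
      exact hC k
    have hbc : ∀ k, b (k + 1) ^ 2 ≤ b k * b (k + 2) := by
      intro k
      show (a (k + 1) / ρ ^ (k + 1)) ^ 2 ≤ a k / ρ ^ k * (a (k + 2) / ρ ^ (k + 2))
      have h1 : (a (k + 1) / ρ ^ (k + 1)) ^ 2 = a (k + 1) ^ 2 / ρ ^ (2 * k + 2) := by
        rw [div_pow, ← pow_mul]
        congr 2
        ring
      have h2 : a k / ρ ^ k * (a (k + 2) / ρ ^ (k + 2)) = a k * a (k + 2) / ρ ^ (2 * k + 2) := by
        rw [div_mul_div_comm, ← pow_add]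
        congr 2
        ring
      rw [h1, h2]
      exact div_le_div_of_nonneg_right (hc k) (pow_nonneg hρ _)
    have hmono : ∀ k, b (k + 1) ≤ b k := by
      intro k
      by_contra hcon
      rw [not_le] at hcon
      have hbk : 0 < b k := by
        rcases (hb0 k).eq_or_lt with h | h
        · exfalso
          have h1 := hbc k
          rw [← h, zero_mul] at h1
          have h2 : 0 < b (k + 1) := by rw [h]; exact hcon
          have h3 : 0 < b (k + 1) ^ 2 := by positivity
          linarith
        · exact h
      let r := b (k + 1) / b k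
      have hr : 1 < r := (one_lt_div hbk).2 hcon
      have hgrow : ∀ j, r ^ j * b k ≤ b (k + j) ∧ r * b (k + j) ≤ b (k + j + 1) := by
        intro j
        induction j with
        | zero =>
          refine ⟨by simp, ?_⟩
          simp only [Nat.add_zero]
          show b (k + 1) / b k * b k ≤ b (k + 1)
          rw [div_mul_cancel₀ _ hbk.ne']
        | succ j ih =>
          obtain ⟨h1, h2⟩ := ih
          have hr0 : 0 < r := by linarith
          have hpos1 : 0 < b (k + j) := lt_of_lt_of_le (mul_pos (pow_pos hr0 j) hbk) h1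
          have hpos2 : 0 < b (k + j + 1) := lt_of_lt_of_le (mul_pos hr0 hpos1) h2
          refine ⟨?_, ?_⟩
          · calc r ^ (j + 1) * b k = r * (r ^ j * b k) := by ring
              _ ≤ r * b (k + j) := mul_le_mul_of_nonneg_left h1 hr0.le
              _ ≤ b (k + j + 1) := h2
          · have h3 := hbc (k + j)
            have h4 : r * b (k + j) * b (k + j + 1) ≤ b (k + j) * b (k + j + 2) := by
              calc r * b (k + j) * b (k + j + 1) ≤ b (k + j + 1) * b (k + j + 1) :=
                    mul_le_mul_of_nonneg_right h2 hpos2.le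
                _ = b (k + j + 1) ^ 2 := by ring
                _ ≤ _ := h3
            have h5 : b (k + j) * (r * b (k + j + 1)) ≤ b (k + j) * b (k + j + 2) := by
              calc b (k + j) * (r * b (k + j + 1)) = r * b (k + j) * b (k + j + 1) := by ring
                _ ≤ _ := h4
            exact le_of_mul_le_mul_left h5 hpos1
      obtain ⟨j, hj⟩ := pow_unbounded_of_one_lt (C / b k) hr
      have h6 := (hgrow j).1
      have h7 := hbC (k + j)
      rw [div_lt_iff₀ hbk] at hj
      linarith
    have hle : ∀ k, b k ≤ b 0 := by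
      intro k
      induction k with
      | zero => exact le_refl _
      | succ k ih => exact (hmono k).trans ih
    have h8 := hle k
    have h9 : b 0 = a 0 := by simp [b]
    rw [h9] at h8
    have h10 : a k / ρ ^ k ≤ a 0 := h8
    rw [div_le_iff₀ (pow_pos hpos k)] at h10
    linarith

end Pool.Agent.Helper79.OB
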