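import Pool.Agent.Helper58.OB.LOCB

/-!
Project OB: packet NAT.
-/

namespace Pool.Agent.Helper79.OB

open Pool.Agent.Helper73.OB Pool.Agent.Helper58.OB

theorem stores_nat {S X Y : Type} {p : Bit → S} {δ : Bit} {f : S → X → X} {g : S → Y → Y}
    {π : X → Y} (h : ∀ s x, π (f s x) = g s (π x)) (M : Y → Bool) (V : Y → unitInterval) (x : X)
    (z : Bit) :
    Stores p δ g M V (π x) z ↔ Stores p δ f (fun y => M (π y)) (fun y => V (π y)) x z := by
  unfold Stores
  rw [pfar_nat h]

theorem ite_nat {S X Y : Type} {p : Bit → S} {δ : Bit} {f : S → X → X} {g : S → Y → Y}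
    {π : X → Y} (h : ∀ s x, π (f s x) = g s (π x)) (M : Y → Bool) (V : Y → unitInterval) (x : X)
    (z : Bit) {A : Type} (a b : A) [Decidable (Stores p δ g M V (π x) z)]
    [Decidable (Stores p δ f (fun y => M (π y)) (fun y => V (π y)) x z)] :
    (if Stores p δ g M V (π x) z then a else b) =
      if Stores p δ f (fun y => M (π y)) (fun y => V (π y)) x z then a else b := by
  by_cases h1 : Stores p δ g M V (π x) z
  · rw [if_pos h1, if_pos ((stores_nat h M V x z).1 h1)]
  · rw [if_neg h1, if_neg fun h2 => h1 ((stores_nat h M V x z).2 h2)]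

theorem nat : S_NAT := by
  intro S X X' p δ f f' π h
  refine ⟨fun M x z => ⟨(kfar_nat h M x z).symm, (pfar_nat h M x z).symm⟩, fun l x => ⟨?_, ?_⟩,
    fun s x => ?_, fun l x => ?_⟩
  · unfold S3
    simp only [bitAt_nat h]
  · unfold E3
    refine congrArg _ (congrArg _ (congrArg _ (funext fun z => ?_)))
    exact (@ite_nat _ _ _ p δ f f' π h (fun y => (l y).1) (fun y => (l y).2.2.1) x z _ _ _ (Classical.propDecidable _) (Classical.propDecidable _)).symm
  · unfold enc
    refine congrArg _ (congrArg _ (congrArg _ (funext fun z => ?_)))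
    exact (@ite_nat _ _ _ p δ f f' π h (fun y => (s y).1) (fun y => (s y).2.2.1) x z _ _ _ (Classical.propDecidable _) (Classical.propDecidable _)).symm
  · unfold dec
    simp only [bitAt_nat h]
    refine congrArg _ (congrArg _ (congrArg _ (funext fun z => ?_)))
    exact (@ite_nat _ _ _ p δ f f' π h (fun y => (l y).1) (fun y => (l y).2.2.1) x z _ _ _ (Classical.propDecidable _) (Classical.propDecidable _)).symm

end Pool.Agent.Helper79.OB
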