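import Pool.Agent.Helper73.OB.GoalsB

/-!
Project OB: packet P1.
-/

namespace Pool.Agent.Helper79.OB

open Pool.Agent.Helper73.OB

theorem sum_ls {S : Type} [Fintype S] (β : S → S) (hβ : ∀ s, β (β s) = s) (hc : 2 ≤ Fintype.card S)
    (h : List S) (r : ℝ) (hr : r = Real.sqrt (Fintype.card S - 1)) :
    ∑ s : S, (r⁻¹) ^ (ls β s h).length ≤ 2 * r * (r⁻¹) ^ h.length := by
  classical
  have hcR : (2 : ℝ) ≤ Fintype.card S := by exact_mod_cast hc
  have hr1 : 1 ≤ r := by
    rw [hr, Real.one_le_sqrt]
    linarith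
  have hr0 : 0 < r := by linarith
  have hrr : r * r = Fintype.card S - 1 := by
    rw [hr]
    exact Real.mul_self_sqrt (by linarith)
  cases h with
  | nil =>
    have h1 : ∀ s : S, (ls β s []).length = 1 := by
      intro s
      unfold ls
      rw [if_neg (by simp)]
      rfl
    simp only [h1, pow_one, Finset.sum_const, Finset.card_univ, nsmul_eq_mul, List.length_nil,
      pow_zero, mul_one]
    rw [← div_eq_mul_inv, div_le_iff₀ hr0]
    nlinarith
  | cons b w =>
    have h1 : ∀ s : S, (r⁻¹) ^ (ls β s (b :: w)).length =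
        (r⁻¹) ^ (w.length + 2) + if s = β b then (r⁻¹) ^ w.length - (r⁻¹) ^ (w.length + 2) else 0 := by
      intro s
      unfold ls
      by_cases hs : s = β b
      · rw [if_pos hs, if_pos]
        · simp
        · rw [hs, hβ]
          rfl
      · rw [if_neg hs, if_neg]
        · simp
        · intro hcon
          apply hs
          have : b = β s := by simpa using hcon
          rw [this, hβ]
    rw [Finset.sum_congr rfl fun s _ => h1 s, Finset.sum_add_distrib, Finset.sum_ite_eq']
    simp only [Finset.sum_const, Finset.card_univ, nsmul_eq_mul, Finset.mem_univ, if_true,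
      List.length_cons]
    have h2 : (Fintype.card S : ℝ) = r * r + 1 := by linarith
    rw [h2]
    have h3 : (r * r + 1) * r⁻¹ ^ (w.length + 2) + (r⁻¹ ^ w.length - r⁻¹ ^ (w.length + 2)) =
        2 * r⁻¹ ^ w.length := by
      have h4 : r⁻¹ ^ (w.length + 2) = r⁻¹ ^ w.length * (r⁻¹ * r⁻¹) := by ring
      have h5 : r * r⁻¹ = 1 := mul_inv_cancel₀ hr0.ne'
      rw [h4]
      calc (r * r + 1) * (r⁻¹ ^ w.length * (r⁻¹ * r⁻¹)) +
            (r⁻¹ ^ w.length - r⁻¹ ^ w.length * (r⁻¹ * r⁻¹)) =
            r⁻¹ ^ w.length * ((r * r⁻¹) * (r * r⁻¹) + 1) := by ring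
        _ = 2 * r⁻¹ ^ w.length := by rw [h5]; ring
    rw [h3]
    apply le_of_eq
    have h5 : r * r⁻¹ = 1 := mul_inv_cancel₀ hr0.ne'
    calc 2 * r⁻¹ ^ w.length = 2 * r⁻¹ ^ w.length * (r * r⁻¹) := by rw [h5, mul_one]
      _ = 2 * r * r⁻¹ ^ (w.length + 1) := by ring

theorem sum_words {S : Type} [Fintype S] (β : S → S) (hβ : ∀ s, β (β s) = s)
    (hc : 2 ≤ Fintype.card S) (r : ℝ) (hr : r = Real.sqrt (Fintype.card S - 1)) (n : ℕ) :
    ∑ u : Fin n → S, (r⁻¹) ^ (red β (List.ofFn u)).length ≤ (2 * r) ^ n := by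
  classical
  have hcR : (2 : ℝ) ≤ Fintype.card S := by exact_mod_cast hc
  have hr0 : 0 ≤ r := by rw [hr]; exact Real.sqrt_nonneg _
  induction n with
  | zero =>
    simp [red_nil]
  | succ n ih =>
    rw [← (Fin.consEquiv fun _ : Fin (n + 1) => S).sum_comp, Fintype.sum_prod_type, Finset.sum_comm]
    calc ∑ u : Fin n → S, ∑ s : S,
          (r⁻¹) ^ (red β (List.ofFn ((Fin.consEquiv fun _ : Fin (n + 1) => S) (s, u)))).length
        ≤ ∑ u : Fin n → S, 2 * r * (r⁻¹) ^ (red β (List.ofFn u)).length := by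
          refine Finset.sum_le_sum fun u _ => ?_
          have h1 : ∀ s : S, red β (List.ofFn ((Fin.consEquiv fun _ : Fin (n + 1) => S) (s, u))) =
              ls β s (red β (List.ofFn u)) := by
            intro s
            have : List.ofFn ((Fin.consEquiv fun _ : Fin (n + 1) => S) (s, u)) =
                s :: List.ofFn u := by
              rw [List.ofFn_succ]
              simp [Fin.consEquiv]
            rw [this, red_cons]
          simp only [h1]
          exact sum_ls β hβ hc _ r hr
      _ = 2 * r * ∑ u : Fin n → S, (r⁻¹) ^ (red β (List.ofFn u)).length := by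
          rw [Finset.mul_sum]
      _ ≤ 2 * r * (2 * r) ^ n := mul_le_mul_of_nonneg_left ih (by linarith)
      _ = (2 * r) ^ (n + 1) := by ring

theorem p1 : S_P1 := by
  classical
  intro S _ β hβ hc n h _
  have hcR : (2 : ℝ) ≤ Fintype.card S := by exact_mod_cast hc
  set r := Real.sqrt (Fintype.card S - 1) with hr
  have hr1 : 1 ≤ r := by
    rw [hr, Real.one_le_sqrt]
    linarith
  have hr0 : 0 < r := by linarith
  have h1 := sum_words β hβ hc r hr n
  have h2 : (Nat.card {u : Fin n → S // red β (List.ofFn u) = h} : ℝ) * (r⁻¹) ^ h.length ≤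
      ∑ u : Fin n → S, (r⁻¹) ^ (red β (List.ofFn u)).length := by
    rw [Nat.card_eq_fintype_card, Fintype.card_subtype]
    calc ((Finset.univ.filter fun u : Fin n → S => red β (List.ofFn u) = h).card : ℝ) *
          (r⁻¹) ^ h.length =
          ∑ u ∈ Finset.univ.filter (fun u : Fin n → S => red β (List.ofFn u) = h),
            (r⁻¹) ^ (red β (List.ofFn u)).length := by
          rw [Finset.sum_congr rfl (fun u hu => by rw [(Finset.mem_filter.1 hu).2]),
            Finset.sum_const, nsmul_eq_mul]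
      _ ≤ _ := by
          refine Finset.sum_le_sum_of_subset_of_nonneg (Finset.filter_subset _ _) ?_
          intro u _ _
          positivity
  have h3 := h2.trans h1
  have h4 : (r⁻¹) ^ h.length = (r ^ h.length)⁻¹ := inv_pow _ _
  rw [h4, ← div_eq_mul_inv, div_le_iff₀ (pow_pos hr0 _)] at h3
  exact h3

end Pool.Agent.Helper79.OB
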