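import Pool.Agent.Helper73.OB.GoalsA

/-!
Project OB: packet RELAB.
-/

open MeasureTheory

namespace Pool.Agent.Helper79.OB

open Pool.Agent.Helper73.OB

theorem relab : S_RELAB := by
  intro S X L L' _ _ _ _ β μ _ f law law' _ _ j j' hf hj hj' hjj l hl
  obtain ⟨hlm, hlmp⟩ := hl
  have hcomp : field β f (fun x => j (l x)) = (fun (ω : RW β → L) (w : RW β) => j (ω w)) ∘ field β f l :=
    rfl
  have hmap : MeasurePreserving (fun (ω : RW β → L) (w : RW β) => j (ω w)) (iid β law) (iid β law') := by
    refine ⟨measurable_pi_lambda _ fun w => hj.measurable.comp (measurable_pi_apply w), ?_⟩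
    rw [Measure.infinitePi_map_pi _ fun _ => hj.measurable]
    simp only [hj.map_eq]
  have hl0 : MeasurePreserving l μ law := by
    have h1 : MeasurePreserving (fun ω : RW β → L => ω (rootW β)) (iid β law) law :=
      ⟨measurable_pi_apply _, Measure.infinitePi_map_eval _ _⟩
    exact h1.comp hlmp
  have hae : ∀ᵐ x ∂μ, j' (j (l x)) = l x := hl0.quasiMeasurePreserving.ae hjj
  refine ⟨⟨hj.measurable.comp hlm, ?_⟩, hae, ?_⟩
  · rw [hcomp]
    exact hmap.comp hlmp
  · rintro ⟨ρ, hρ, hρx⟩
    refine ⟨fun ω => ρ fun w => j' (ω w), hρ.comp (measurable_pi_lambda _ fun w =>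
      hj'.measurable.comp (measurable_pi_apply w)), ?_⟩
    have hall : ∀ᵐ x ∂μ, ∀ w : RW β, j' (j (l (run f w.1 x))) = l (run f w.1 x) := by
      rw [ae_all_iff]
      intro w
      exact (hf.run_mp w.1).quasiMeasurePreserving.ae hae
    filter_upwards [hρx, hall] with x h1 h2
    have h3 : (fun w => j' (field β f (fun x => j (l x)) x w)) = field β f l x := by
      funext w
      exact h2 w
    rw [h3, h1]

end Pool.Agent.Helper79.OB
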