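import Pool.Agent.Helper79.OB.GoalsC
import Pool.Agent.Helper79.OB.UW
import Pool.Agent.Helper79.OB.NAT
import Pool.Agent.Helper79.OB.BIT
import Pool.Agent.Helper79.OB.RELAB
import Pool.Agent.Helper79.OB.LCS
import Pool.Agent.Helper79.OB.P1
import Pool.Agent.Helper73.OB.ISO
import Pool.Agent.Helper86.OB.MODSYS
import Pool.Agent.Helper86.OB.U1
import Pool.Agent.Helper85.OB.PRB
import Pool.Agent.Helper5.OB.PACK
import Pool.Agent.Helper5.OB.STEP
import Pool.Agent.Helper48.OB.MEAS
import Pool.Agent.Helper74.OB.EXCH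
import Pool.Agent.Helper74.OB.FAR
import Pool.Agent.Helper25.OB.BLK
import Pool.Agent.Helper41.OB.COD2B
import Pool.Agent.Helper41.OB.SPEC
import Pool.Agent.Helper64.OB.CYL
import Pool.Agent.Helper31.OB.MATCH
import Pool.Agent.Helper18.OB.TAIL1
import Pool.Agent.Helper82.OB.EX
import Pool.Agent.Helper82.OB.SKEW
import Pool.Agent.Helper80.OB.COD
import Pool.Agent.Helper80.OB.GROUP
import Pool.Agent.Helper80.OB.TRANS
import Pool.Agent.Helper81.OB.ROOT
import Pool.Agent.Helper58.OB.LOCB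
import Pool.Agent.Helper30.OBB.SUB
import Pool.Agent.Helper91.OB.U2
import Pool.Agent.Helper59.OB.REC
import Pool.Agent.Helper19.OB.MIX
import Pool.Agent.Helper33.OB.GREEDY
import Pool.Agent.Helper3.OB.BACK
import Pool.Agent.Helper2.OB.GEN
import Pool.Agent.Helper60.OB.E3MP
import Pool.Agent.Helper8.OB.GLUE3

/-!
Project OB (MP_fc0446_an): assembly of the step theorem.
-/

open MeasureTheory
open scoped ENNReal

namespace Pool.Agent.Helper79.OB

open Pool.Agent.Helper73.OB

theorem modsys : S_MODSYS := Pool.Agent.Helper86.OB.modsys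
theorem prb : S_PRB := Pool.Agent.Helper85.OB.prb
theorem far : S_FAR := Pool.Agent.Helper74.OB.far
theorem blk : S_BLK := Pool.Agent.Helper25.OB.blk uw
theorem u2 : S_U2 := Pool.Agent.Helper91.OB.u2 Pool.Agent.Helper86.OB.u1
theorem cod2b : S_COD2B :=
  Pool.Agent.Helper41.OB.cod2b prb Pool.Agent.Helper5.OB.pack far blk
theorem root : S_ROOT :=
  Pool.Agent.Helper81.OB.root uw bit far prb Pool.Agent.Helper48.OB.meas modsys
theorem locb : S_LOCB :=
  Pool.Agent.Helper58.OB.locb uw blk bit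
theorem e3mp : S_E3MP :=
  Pool.Agent.Helper60.OB.e3mp Pool.Agent.Helper82.OB.skew Pool.Agent.Helper5.OB.pack prb
    Pool.Agent.Helper48.OB.meas
theorem glue3 : S_GLUE3 :=
  Pool.Agent.Helper8.OB.glue3 locb uw blk bit far prb Pool.Agent.Helper48.OB.meas modsys
theorem cod : S_COD :=
  Pool.Agent.Helper80.OB.cod modsys prb Pool.Agent.Helper48.OB.meas nat root
    Pool.Agent.Helper80.OB.group glue3 e3mp cod2b Pool.Agent.Helper80.OB.trans
theorem recc : S_REC :=
  Pool.Agent.Helper59.OB.rec u2 cod modsys nat Pool.Agent.Helper48.OB.meas prb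
theorem mtch : S_MATCH :=
  Pool.Agent.Helper31.OB.match_ Pool.Agent.Helper30.OBB.sub Pool.Agent.Helper19.OB.mix
    Pool.Agent.Helper33.OB.greedy prb
theorem exch : S_EXCH := Pool.Agent.Helper74.OB.exch mtch prb
theorem ex (hLOC : S_LOC) : S_EX := Pool.Agent.Helper82.OB.ex hLOC
theorem gen : S_GEN :=
  Pool.Agent.Helper2.OB.gen Pool.Agent.Helper3.OB.back Pool.Agent.Helper48.OB.meas nat
theorem cyl : S_CYL := Pool.Agent.Helper64.OB.cyl p1
theorem spec : S_SPEC := Pool.Agent.Helper41.OB.spec cyl lcs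
theorem tail1 : S_TAIL1 := Pool.Agent.Helper18.OB.tail1 spec Pool.Agent.Helper30.OBB.sub prb
theorem step (hLOC : S_LOC) : S_STEP :=
  Pool.Agent.Helper5.OB.step Pool.Agent.Helper73.OB.iso relab cod exch (ex hLOC)
    recc gen Pool.Agent.Helper3.OB.back tail1 prb

end Pool.Agent.Helper79.OB
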