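import Pool.Agent.Helper79.OB.GoalsC
import Pool.Agent.Helper86.OB.NEAR
import Pool.Agent.Helper48.OB.NEARM
import Pool.Agent.Helper19.OB.ORB
import Pool.Agent.Helper12.OB.TAILT
import Pool.Agent.Helper56.OB.FRAME
import Pool.Agent.Helper74.OB.BASE
import Pool.Agent.Helper30.OBB.END
import Pool.Agent.Helper35.OB.DIST
import Pool.Agent.Helper35.OB.FIN
import Pool.Agent.Helper91.OB.CHAIN
import Pool.Agent.Helper55.OB.NUMT

/-!
Project OB (MP_fc0446_an): assembly of part C.
-/

open MeasureTheory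
open scoped ENNReal

namespace Pool.Agent.Helper79.OB

open Pool.Agent.Helper73.OB

theorem chain (hSTEP : S_STEP) : S_CHAIN :=
  Pool.Agent.Helper91.OB.th_chain hSTEP Pool.Agent.Helper56.OB.th_frame Pool.Agent.Helper86.OB.th_near
    Pool.Agent.Helper48.OB.th_nearm Pool.Agent.Helper19.OB.th_orb
    (Pool.Agent.Helper12.OB.th_tailt Pool.Agent.Helper55.OB.th_numt)

theorem fin (hSTEP : S_STEP) : Final :=
  Pool.Agent.Helper35.OB.th_fin Pool.Agent.Helper74.OB.th_base (chain hSTEP) Pool.Agent.Helper86.OB.th_near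
    Pool.Agent.Helper30.OBB.th_end

end Pool.Agent.Helper79.OB
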