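import Pool.Agent.Helper73.OB.GoalsB
import Pool.Agent.Helper58.Orb.Groups

/-!
Project OB (MP_fc0446_an), goals C: comparison of two families, composition of the steps, base, end,
final theorem. Text proofs: `Pool/Agent/Helper73/OB/paper.md`, section 7 (and 1 for base and end). Each
packet proves one `S_...`; other `S_...` may be used as hypotheses.
-/

open MeasureTheory
open scoped ENNReal

namespace Pool.Agent.Helper79.OB

open Pool.Agent.Helper73.OB Pool.Agent.Helper58.Orb

section Families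

variable {S X : Type}

/-- `y` is reached from `x` by an `f`-word of length at most `n`. -/
def Reach (f : S → X → X) (n : ℕ) (x y : X) : Prop := ∃ w : List S, w.length ≤ n ∧ run f w x = y

/-- The distance in the graph of `f`. -/
noncomputable def dst (f : S → X → X) (x y : X) : ℕ∞ :=
  ⨅ (w : List S) (_ : run f w x = y), (w.length : ℕ∞)

/-- At all points reached from `x` by at most `n` steps, `f` and `g` have the same neighbours. -/
def Near (f g : S → X → X) (n : ℕ) (x : X) : Prop :=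
  ∀ w : List S, w.length ≤ n →
    Set.range (fun a => f a (run f w x)) = Set.range (fun a => g a (run f w x))

/-- `f` and `g` have the same orbits almost everywhere. -/
def SameOrb [MeasurableSpace X] (μ : Measure X) (f g : S → X → X) : Prop :=
  ∀ᵐ x ∂μ, ∀ y, (∃ w, run f w x = y) ↔ ∃ w, run g w x = y

/-- Stretched exponential tails in both directions. -/
def Tails [MeasurableSpace X] (μ : Measure X) (f g : S → X → X) : Prop :=
  ∃ C c α : ℝ, 0 < c ∧ 0 < α ∧ Tail μ f g C c α ∧ Tail μ g f C c α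

end Families

section Letters

/-- The letters. -/
abbrev Ltr (d : ℕ) : Type := Fin d × Bool

/-- The involution of stage `k`: the letters of the first `k` factors are fixed. -/
def bet (d k : ℕ) (s : Ltr d) : Ltr d := if (s.1 : ℕ) < k then s else (s.1, !s.2)

/-- The two special letters of the step `i`. -/
def pk {d : ℕ} (i : Fin d) (z : Bit) : Ltr d := (i, decide (z = 1))

/-- The family of the Bernoulli shift of `F_d`. -/
noncomputable def f0 (d : ℕ) (s : Ltr d) (x : Bern (FreeGroup (Fin d))) : Bern (FreeGroup (Fin d)) :=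
  shift (fdir s)⁻¹ x

end Letters

/-- NEAR. Geometry of `Near` (pointwise, no measure).
Proof. (1) By induction on `k`: if `y = f a (run f u x)` with `|u| ≤ k ≤ n`, then `y ∈ range (g · z)`,
`z = run f u x`, and `z` is `g`-reached by at most `k` steps by induction; the other direction is the same:
`y = g a (run g u x)`, `z = run g u x = run f u' x` with `|u'| ≤ k` by induction, `range` equal at `z`.
(2) a point reached by at most `n` `g`-steps is reached by at most `n` `f`-steps by (1). (3) the same.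
(4) By (2) and symmetry it is enough that `dst g y y' ≤ |w|` for every `w` with `run f w y = y'`. `y, y'` are
`g`-reached from `x` by at most `R` steps ((1)), so `dst g y y' ≤ 2R` (use `invw β'`, `run_invw`, `run_append`)
and we may assume `|w| ≤ 2R`. The points `z_i = run f (w.take i) y`, `i < |w|`, are `f`-reached from `x` by at
most `R + i ≤ 3R` steps, so `f a z_i = g a' z_i` for some `a'`: a `g`-word of the same length. -/
def S_NEAR : Prop :=
  ∀ (S X : Type) (f g h : S → X → X) (n : ℕ) (x : X),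
    (Near f g n x → ∀ k ≤ n + 1, ∀ y, Reach f k x y ↔ Reach g k x y) ∧
    (Near f g n x → Near g f n x) ∧
    (Near f g n x → Near g h n x → Near f h n x) ∧
    (∀ β β' : S → S, (∀ a x, f (β a) (f a x) = x) → (∀ a x, g (β' a) (g a x) = x) →
      ∀ R : ℕ, Near f g (3 * R) x → ∀ y y', Reach f R x y → Reach f R x y' → dst f y y' = dst g y y')

/-- NEARM. The measure of the complement of `Near`.
Proof. Almost every `x` has all points `run f w x` in `G` (`run f w` is measure preserving, there are countably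
many words). If in addition no point `run f w x`, `|w| ≤ n + 1`, is in `Mk`, then `Near f g n x`. The number of
words of length at most `n + 1` is at most `(card S + 1) ^ (n + 1)`, and `μ (run f w ⁻¹' Mk) = μ Mk`
(`Sys.run_mp`). -/
def S_NEARM : Prop :=
  ∀ (S X : Type) [Fintype S] [MeasurableSpace X] (β : S → S) (μ : Measure X)
    [IsProbabilityMeasure μ] (f g : S → X → X), Sys β μ f → ∀ Mk G : Set X, MeasurableSet Mk →
    μ Gᶜ = 0 → (∀ x ∈ G, x ∉ Mk → (∀ a, f a x ∉ Mk) →
      (Set.range fun a => g a x) = Set.range fun a => f a x) →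
    ∀ n : ℕ, μ {x | ¬ Near f g n x} ≤ ((Fintype.card S : ℝ≥0∞) + 1) ^ (n + 1) * μ Mk

/-- ORB. Orbits. Proof. (1) `x ∈ G` has `run f w x ∈ G`; induction on `w`; (2) pointwise. -/
def S_ORB : Prop :=
  ∀ (S X : Type) [MeasurableSpace X] (μ : Measure X) (f g h : S → X → X),
    (∀ G : Set X, μ Gᶜ = 0 → (∀ x ∈ G, ∀ a, f a x ∈ G ∧ g a x ∈ G) →
      (∀ x ∈ G, ∀ a, (∃ w, run f w x = g a x) ∧ ∃ w, run g w x = f a x) → SameOrb μ f g) ∧
    (SameOrb μ f g → SameOrb μ g h → SameOrb μ f h)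

/-- NUMT. The numerical part of the composition of tails.
Proof. We may assume `C₁, C₂ ≥ 1` and `L ≥ 1`. Let `θ = α₁ / (1 + α₁)`, `κ ∈ (0, 1/4]` with
`4 L κ ≤ c₁ (8 κ) ^ (-α₁)` (possible: the left side tends to `0`, the right side to `∞` as `κ → 0`; it is enough
that `4 L 8^α₁ κ^(1+α₁) ≤ c₁`), `k = ⌊κ N^θ⌋ + 1`, `m = N / k`. If `κ N^θ ≥ 1` then `k ≤ 2 κ N^θ ≤ N`, and
`m ≥ N / (2k) ≥ N^(1-θ) / (4κ)`, so `c₁ m^α₁ ≥ c₁ (4κ)^(-α₁) N^θ ≥ 4 L κ N^θ ≥ 2 L k`; so the second
term is at most `C₁ exp(-(L k)) ≤ C₁ exp(- L κ N^θ)`, the first is at most `C₂ exp(-c₂ κ^α₂ N^(θ α₂))`, both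
are at most `(C₁ + C₂) exp(-c N^α) / 2` with `α = θ min(1, α₂)`, small `c`. If `κ N^θ < 1` then `N` is bounded
and `C exp(-c N^α) ≥ 1` for large `C`: take any `k, m` with `k m ≤ N`. -/
def S_NUMT : Prop :=
  ∀ (L C₁ c₁ α₁ C₂ c₂ α₂ : ℝ), 0 < c₁ → 0 < α₁ → 0 < c₂ → 0 < α₂ →
    ∃ C c α : ℝ, 0 < c ∧ 0 < α ∧ ∀ N : ℕ, ∃ k m : ℕ, k * m ≤ N ∧
      min 1 (C₂ * Real.exp (-(c₂ * (k : ℝ) ^ α₂)) +
        Real.exp (L * k) * (C₁ * Real.exp (-(c₁ * (m : ℝ) ^ α₁)))) ≤
        C * Real.exp (-(c * (N : ℝ) ^ α))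

/-- TAILT. Composition of tails. Proof. Let `k, m` be given by `S_NUMT` for `N`, with
`L = log (card S + 1)`. Except for a set of measure `C₂ exp(-(c₂ k^α₂))`, `h a x = run g w x` with
`|w| ≤ k`. For all words `v` with `|v| < k` and letters `b` (at most `(card S + 1)^k` words `v ++ [b]`) we have
`g b (run g v x) = run f u (run g v x)` with `|u| ≤ m`, except for a set of measure
`(card S + 1)^k C₁ exp(-(c₁ m^α₁))` (`run g v` is measure preserving; outer measure: use `toMeasurable` of the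
exceptional set). If both hold then `h a x` is `f`-reached from `x` by at most `k m ≤ N` steps. Everything is
at most `1` since `μ` is a probability measure. -/
def S_TAILT : Prop :=
  ∀ (S X : Type) [Fintype S] [MeasurableSpace X] (μ : Measure X) [IsProbabilityMeasure μ]
    (f g h : S → X → X), (∀ a, MeasurePreserving (g a) μ μ) →
    ∀ C₁ c₁ α₁ C₂ c₂ α₂ : ℝ, 0 < c₁ → 0 < α₁ → 0 < c₂ → 0 < α₂ →
      Tail μ f g C₁ c₁ α₁ → Tail μ g h C₂ c₂ α₂ →
      ∃ C c α : ℝ, 0 < c ∧ 0 < α ∧ Tail μ f h C c α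

/-- FRAME. The frames of the steps. -/
def S_FRAME : Prop :=
  ∀ (d : ℕ) (i : Fin d),
    Fr (bet d i) (pk i) 0 ∧ Fr (bet d (i + 1)) (pk i) 1 ∧
    (∀ a, a ∉ Set.range (pk i) → bet d i a = bet d (i + 1) a) ∧
    (2 ≤ d → ∃ a b : Ltr d, a ≠ b ∧ a ∉ Set.range (pk i) ∧ b ∉ Set.range (pk i)) ∧
    (3 ≤ d → 3 ≤ Nat.card {a : Ltr d // a ∉ Set.range (pk i)}) ∧
    (∀ a, bet d d a = a) ∧ (∀ a : Ltr d, bet d 0 a = (a.1, !a.2))

/-- CHAIN. The composition of the `d` steps.
Proof. Induction on `k ≤ d`: there are `f', l'` with `Good (bet d k) μ f' l'`, `SameOrb μ f f'`,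
`μ {¬ Near f f' n} ≤ k ((2d+1)^(n+1) e)` and (`3 ≤ d`) `Tails μ f f'`. For `k = 0` take `f' = f`
(`Tail μ f f C 1 1` with `C = exp 1`: for `n = 0` the bound is at least 1, for `n ≥ 1` the word `[a]`). Step
`k → k + 1`: `S_STEP` with `S_FRAME` for `i = k`; `S_ORB`, `S_NEARM` (`card (Ltr d) = 2d`), `S_NEAR` (3),
`S_TAILT` twice (use the larger of the two constants `C`, the smaller `c` and `α` for `n ≥ 1`, and a larger
`C` for `n = 0`). -/
def S_CHAIN : Prop :=
  ∀ (d : ℕ), 2 ≤ d → ∀ (X : Type) [MeasurableSpace X] [StandardBorelSpace X] (μ : Measure X)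
    [IsProbabilityMeasure μ] (f : Ltr d → X → X) (l : X → unitInterval), Good (bet d 0) μ f l →
    ∀ e : unitInterval, 0 < e →
      ∃ (f' : Ltr d → X → X) (l' : X → unitInterval), Good (bet d d) μ f' l' ∧ SameOrb μ f f' ∧
        (∀ n : ℕ, μ {x | ¬ Near f f' n x} ≤
          (d : ℝ≥0∞) * ((2 * (d : ℝ≥0∞) + 1) ^ (n + 1) * ENNReal.ofReal e)) ∧
        (3 ≤ d → Tails μ f f')

/-- BASE. The Bernoulli shift of `F_d` as a system.
Proof. `run (f0 d) w x = shift (FreeGroup.mk w)⁻¹ x` (induction, `shift_mul`, `FreeGroup.mul_mk`), so its value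
at `1` is `x (FreeGroup.mk w)`; `w ↦ FreeGroup.mk w` is a bijection from the reduced words for `bet d 0`
(`b ≠ (a.1, !a.2)` for consecutive letters; Mathlib: `FreeGroup.IsReduced`, or `FreeGroup.toWord_mk`,
`FreeGroup.reduce` and the length arguments of `red`) to `FreeGroup (Fin d)`, so the field of `x ↦ x 1` is a
relabelling of the coordinates (measure preserving: `Measure.infinitePi_map_piCongrLeft` or
`Measure.map_infinitePi_infinitePi_of_inj`; generating: the inverse relabelling). Distances: a word `w` with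
`run (f0 d) w x = y` gives `g = (FreeGroup.mk w)⁻¹` with `shift g x = y` and `wordLen g ≤ |w|`, and a list of
generators with product `g` gives a word of the same length. -/
def S_BASE : Prop :=
  ∀ d : ℕ, Good (bet d 0) (bern (FreeGroup (Fin d))) (f0 d) (fun x => x 1) ∧
    (∀ x y : Bern (FreeGroup (Fin d)), orbDist (freeGens d) x y = dst (f0 d) x y) ∧
    (∀ (g : FreeGroup (Fin d)) (R : ℕ), wordLen (freeGens d) g ≤ R → ∀ x, Reach (f0 d) R x (shift g x)) ∧
    (∀ (w : List (Ltr d)) x, ∃ g : FreeGroup (Fin d), run (f0 d) w x = shift g x) ∧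
    (∀ g : FreeGroup (Fin d), ∃ w, ∀ x, run (f0 d) w x = shift g x)

/-- END. A good system for involutions is the Bernoulli shift of `(ℤ/2)^{*2d}`.
Proof. `e : Ltr d ≃ Fin (2d)` any bijection; for `γ : Gam (2d)` let `wd γ : List (Ltr d)` be the list of the
`e.symm`-images of the indices of the reduced word `Monoid.CoprodI.Word.equiv γ`; it is reduced for
`bet d d = id`, and `γ ↦ wd γ` is a bijection onto the reduced words with `wd (gdir (e a) * γ) = ls (bet d d) a (wd γ)`
(see `Helper58/Orb/Groups.lean`). `Φ x γ = l (run f (wd γ) x)`: it is the field of `l` relabelled, so measure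
preserving (`Bnl`), and `Φ (f a x) γ = l (run f (ls _ a (wd γ)) x) = Φ x (gdir (e a) * γ) = shift (gdir (e a)) (Φ x) γ`
(`run_ls`, `gdir_mul_self`). `Ψ = ρ ∘ relabelling` with `ρ` from `Gen`: `Ψ (Φ x) = x` a.e.; then
`Φ (Ψ y) = y` for a.e. `y` because `Φ` is measure preserving and it holds for `y = Φ x` a.e. (the set
`{y | Φ (Ψ y) = y}` is measurable), and `Ψ` is measure preserving: `(bern).map Ψ = (μ.map Φ).map Ψ = μ`. -/
def S_END : Prop :=
  ∀ (d : ℕ) (X : Type) [MeasurableSpace X] (μ : Measure X) [IsProbabilityMeasure μ]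
    (f : Ltr d → X → X) (l : X → unitInterval), Good (bet d d) μ f l →
    ∃ (e : Ltr d ≃ Fin (2 * d)) (Φ : X → Bern (Gam (2 * d))) (Ψ : Bern (Gam (2 * d)) → X),
      MeasurePreserving Φ μ (bern (Gam (2 * d))) ∧ MeasurePreserving Ψ (bern (Gam (2 * d))) μ ∧
      (∀ᵐ x ∂μ, Ψ (Φ x) = x) ∧ (∀ᵐ y ∂(bern (Gam (2 * d))), Φ (Ψ y) = y) ∧
      ∀ a x, Φ (f a x) = shift (gdir (e a)) (Φ x)

/-- DIST. Orbits and distances under `Φ` of `S_END`.
Proof. Almost every `x` has `Ψ (Φ (run f v x)) = run f v x` for all `v`. Let `y = run f v x`, `y' = run f w x`.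
If `run f u y = y'` then `Φ y'` is `shift γ (Φ y)` with `γ` the product of the generators of the reversed word,
so `wordLen γ ≤ |u|`. Conversely, if `shift γ (Φ y) = Φ y'` and `γ` is the product of a list of `k` generators
`gdir (e a_1), …, gdir (e a_k)`, then `u = [a_k, …, a_1]` has `Φ (run f u y) = Φ y'`, and applying `Ψ`,
`run f u y = y'`, so `dst f y y' ≤ k`. Orbits: every `γ` is such a product. -/
def S_DIST : Prop :=
  ∀ (d : ℕ) (X : Type) [MeasurableSpace X] (μ : Measure X) [IsProbabilityMeasure μ]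
    (f : Ltr d → X → X), Sys (bet d d) μ f →
  ∀ (e : Ltr d ≃ Fin (2 * d)) (Φ : X → Bern (Gam (2 * d))) (Ψ : Bern (Gam (2 * d)) → X),
    (∀ᵐ x ∂μ, Ψ (Φ x) = x) → (∀ a x, Φ (f a x) = shift (gdir (e a)) (Φ x)) →
    ∀ᵐ x ∂μ, (∀ v w : List (Ltr d), orbDist (gamGens (2 * d)) (Φ (run f v x)) (Φ (run f w x)) =
        dst f (run f v x) (run f w x)) ∧
      (∀ γ : Gam (2 * d), ∃ w, Φ (run f w x) = shift γ (Φ x)) ∧
      (∀ w, ∃ γ : Gam (2 * d), Φ (run f w x) = shift γ (Φ x)) ∧
      (∀ (γ : Gam (2 * d)) (R : ℕ), wordLen (gamGens (2 * d)) γ ≤ R →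
        ∃ w : List (Ltr d), w.length ≤ R ∧ Φ (run f w x) = shift γ (Φ x))

/-- The final theorem. -/
def Final : Prop :=
  ∀ (d : ℕ), 2 ≤ d → ∀ (R : ℕ) (ε : ℝ), 0 < ε →
    ∃ (Φ : Bern (FreeGroup (Fin d)) → Bern (Gam (2 * d)))
      (Ψ : Bern (Gam (2 * d)) → Bern (FreeGroup (Fin d))),
      MeasurePreserving Φ (bern (FreeGroup (Fin d))) (bern (Gam (2 * d))) ∧
      MeasurePreserving Ψ (bern (Gam (2 * d))) (bern (FreeGroup (Fin d))) ∧
      (∀ᵐ x ∂(bern (FreeGroup (Fin d))), Ψ (Φ x) = x) ∧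
      (∀ᵐ y ∂(bern (Gam (2 * d))), Φ (Ψ y) = y) ∧
      (∀ᵐ x ∂(bern (FreeGroup (Fin d))),
        Set.range (fun g : FreeGroup (Fin d) => Φ (shift g x)) =
          Set.range (fun γ : Gam (2 * d) => shift γ (Φ x))) ∧
      (∀ᵐ y ∂(bern (Gam (2 * d))),
        Set.range (fun γ : Gam (2 * d) => Ψ (shift γ y)) =
          Set.range (fun g : FreeGroup (Fin d) => shift g (Ψ y))) ∧
      bern (FreeGroup (Fin d)) {x | ∃ g h : FreeGroup (Fin d), wordLen (freeGens d) g ≤ R ∧
        wordLen (freeGens d) h ≤ R ∧ orbDist (gamGens (2 * d)) (Φ (shift g x)) (Φ (shift h x)) ≠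
          orbDist (freeGens d) (shift g x) (shift h x)} ≤ ENNReal.ofReal ε ∧
      bern (Gam (2 * d)) {y | ∃ γ η : Gam (2 * d), wordLen (gamGens (2 * d)) γ ≤ R ∧
        wordLen (gamGens (2 * d)) η ≤ R ∧ orbDist (freeGens d) (Ψ (shift γ y)) (Ψ (shift η y)) ≠
          orbDist (gamGens (2 * d)) (shift γ y) (shift η y)} ≤ ENNReal.ofReal ε ∧
      (3 ≤ d → ∃ C c α : ℝ, 0 < c ∧ 0 < α ∧ ∀ n : ℕ,
        (∀ s ∈ freeGens d, bern (FreeGroup (Fin d))
          {x | (n : ℕ∞) < orbDist (gamGens (2 * d)) (Φ x) (Φ (shift s x))} ≤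
            ENNReal.ofReal (C * Real.exp (-(c * (n : ℝ) ^ α)))) ∧
        (∀ t ∈ gamGens (2 * d), bern (Gam (2 * d))
          {y | (n : ℕ∞) < orbDist (freeGens d) (Ψ y) (Ψ (shift t y))} ≤
            ENNReal.ofReal (C * Real.exp (-(c * (n : ℝ) ^ α)))))

/-- FIN. The final theorem.
Proof. `X = X_F`, `f = f0 d`, `S_BASE`, `S_CHAIN` with `e > 0` so small that
`d (2d+1)^(3R+1) e ≤ ε`, `S_END, S_DIST` for `f'`. Let `x` be good: the a.e. statements of `S_DIST`, `SameOrb`,
`Ψ (Φ y) = y` hold at all points of the orbit of `x` (orbits are countable; `Sys.run_mp`). (a) Orbits: from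
`SameOrb` and `S_DIST`. (b) If `Near f f' (3R) x` then for `|g|, |h| ≤ R` the points `y = shift g x`, `y' = shift h x`
are `f`-reached by at most `R` steps, so `dst f y y' = dst f' y y'` (`S_NEAR`), `orbDist F y y' = dst f y y'`
(`S_BASE`) and `orbDist Γ (Φ y) (Φ y') = dst f' y y'` (`S_DIST`; `y, y'` are in the `f'`-orbit of `x`). (c) For
`s ∈ freeGens`, `shift s x = f a x` for a letter `a`; if `f a x = run f' w x` with `|w| ≤ n` then
`orbDist Γ (Φ x) (Φ (shift s x)) = dst f' x (f a x) ≤ n`. (d) For `Ψ`: `y = Φ x` a.e. with `x = Ψ y`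
(`Ψ` is measure preserving, so the measure of a set `{y | P (Ψ y)}` is at most `μ {x | P x}`, with
`toMeasurable`); `shift γ (Φ x) = Φ (run f' w x)` with `|w| ≤ R` (`S_DIST`), so `Ψ (shift γ y) = run f' w x`, and
`run f' w x` is `f`-reached by at most `R` steps if `Near f f' (3R) x`; then as in (b), (c). -/
def S_FIN : Prop := Final

end Pool.Agent.Helper79.OB
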