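import Pool.Agent.Helper73.OB.GoalsB

/-!
Project OB: packet LOC.
-/

open MeasureTheory

namespace Pool.Agent.Helper79.OB

open Pool.Agent.Helper73.OB

section Sig

variable {S X L : Type} [MeasurableSpace L]

theorem meas_sig (f : S → X → X) (s : X → L) {Q : Set (List S)} {w : List S} (hw : w ∈ Q) :
    @Measurable X L (sig f s Q) _ (fun x => s (run f w x)) :=
  (comap_measurable _).mono (le_iSup₂_of_le w hw le_rfl) le_rfl

/-- A run maps the field `Q` to the field `Q'`. -/
theorem run_sig (f : S → X → X) (s : X → L) (Q Q' : Set (List S)) (u : List S)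
    (h : ∀ w ∈ Q', ∃ v ∈ Q, ∀ x, run f v x = run f w (run f u x)) :
    @Measurable X X (sig f s Q) (sig f s Q') (run f u) := by
  rw [measurable_iff_comap_le]
  unfold sig
  rw [MeasurableSpace.comap_iSup]
  refine iSup_le fun w => ?_
  rw [MeasurableSpace.comap_iSup]
  refine iSup_le fun hw => ?_
  obtain ⟨v, hv, hx⟩ := h w hw
  rw [MeasurableSpace.comap_comp]
  refine le_iSup₂_of_le v hv ?_
  have : (fun x => s (run f w x)) ∘ run f u = fun x => s (run f v x) := by
    funext x
    simp only [Function.comp_apply, hx]
  rw [this]

theorem sig_mono' (f : S → X → X) (s : X → L) {Q Q' : Set (List S)} (h : Q ⊆ Q') :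
    sig f s Q ≤ sig f s Q' := by
  refine iSup₂_le fun w hw => ?_
  exact le_iSup₂_of_le w (h hw) le_rfl

theorem sets_of_meas {A : Type} (m : MeasurableSpace X) (U : X → A)
    (h : @Measurable X A m ⊤ U) (t : A) : MeasurableSet[m] {x | U x = t} :=
  h (t := {t}) trivial

theorem meas_of_sets {A : Type} [Countable A] (m : MeasurableSpace X) (U : X → A)
    (h : ∀ t, MeasurableSet[m] {x | U x = t}) : @Measurable X A m ⊤ U := by
  intro T _
  have : U ⁻¹' T = ⋃ t ∈ T, {x | U x = t} := by
    ext x
    simp
  rw [this]
  exact @MeasurableSet.biUnion X A m _ _ (Set.to_countable T) fun t _ => h t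

/-- Gluing of countably many functions. -/
theorem sets_glue {A B : Type} [Countable A] (m : MeasurableSpace X) (D : X → A) (W : A → X → B)
    (hD : ∀ a, MeasurableSet[m] {x | D x = a}) (hW : ∀ a b, MeasurableSet[m] {x | W a x = b})
    (b : B) : MeasurableSet[m] {x | W (D x) x = b} := by
  have : {x | W (D x) x = b} = ⋃ a, ({x | D x = a} ∩ {x | W a x = b}) := by
    ext x
    simp
  rw [this]
  exact @MeasurableSet.iUnion X A m _ _ fun a => (hD a).inter (hW a b)

end Sig

section Words

variable {S : Type} {β : S → S} {p : Bit → S}

theorem isH_append {u v : List S} (hu : IsH p u) (hv : IsH p v) : IsH p (u ++ v) := by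
  intro a ha
  rcases List.mem_append.1 ha with h | h
  · exact hu a h
  · exact hv a h

theorem isH_ls {w : List S} (hw : IsH p w) {a : S}
    (ha : a ∉ Set.range p) : IsH p (ls β a w) := by
  unfold ls
  split_ifs
  · intro b hb
    exact hw b (List.mem_of_mem_tail hb)
  · intro b hb
    rcases List.mem_cons.1 hb with h | h
    · rw [h]; exact ha
    · exact hw b h

theorem isH_red {w : List S} (hw : IsH p w) : IsH p (red β w) := by
  induction w with
  | nil => exact hw
  | cons a w ih =>
    rw [red_cons]
    exact isH_ls (ih fun b hb => hw b (List.mem_cons_of_mem _ hb)) (hw a List.mem_cons_self)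

theorem h_beta {δ : Bit} (hF : Fr β p δ) (a : S) (ha : a ∉ Set.range p) : β a ∉ Set.range p := by
  rintro ⟨z, hz⟩
  apply ha
  have h1 := congrArg β hz
  rw [hF.inv, hF.bp] at h1
  exact ⟨_, h1⟩

/-- `u ++ p z :: v` is reduced. -/
theorem red_mid {δ : Bit} (hF : Fr β p δ) {u v : List S} (hu : Red β u) (hH : IsH p u) (z : Bit)
    (hv : Red β v) (hh : v.head? ≠ some (p (z + 1 + δ))) : Red β (u ++ p z :: v) := by
  refine Red.append hu ?_ ?_
  · cases v with
    | nil => exact List.isChain_singleton _
    | cons b v =>
      refine List.isChain_cons_cons.2 ⟨?_, hv⟩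
      rw [hF.bp]
      intro hb
      apply hh
      rw [hb]
      rfl
  · intro a ha b hb
    have ha' : a ∈ u := List.mem_of_mem_getLast? ha
    have hb' : b = p z := by simpa [eq_comm] using hb
    rw [hb']
    intro hc
    have h1 := h_beta hF a (hH a ha')
    exact h1 ⟨z, hc⟩

theorem head_mid {u v : List S} (hH : IsH p u) (z z' : Bit) (hinj : Function.Injective p)
    (h : ¬ (u = [] ∧ z' = z)) : (u ++ p z' :: v).head? ≠ some (p z) := by
  cases u with
  | nil =>
    intro hc
    apply h
    refine ⟨rfl, ?_⟩
    have : p z' = p z := by simpa using hc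
    exact hinj this
  | cons a u =>
    intro hc
    have : a = p z := by simpa using hc
    exact hH a List.mem_cons_self ⟨z, this.symm⟩

theorem decomp (p : Bit → S) (w : List S) :
    IsH p w ∨ ∃ w' c' w'', w = w' ++ p c' :: w'' ∧ IsH p w' := by
  induction w with
  | nil => exact Or.inl fun a ha => absurd ha List.not_mem_nil
  | cons a w ih =>
    by_cases ha : a ∈ Set.range p
    · obtain ⟨c, rfl⟩ := ha
      exact Or.inr ⟨[], c, w, rfl, fun a ha => absurd ha List.not_mem_nil⟩
    · rcases ih with h | ⟨w', c', w'', rfl, h⟩
      · left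
        intro b hb
        rcases List.mem_cons.1 hb with h1 | h1
        · rw [h1]; exact ha
        · exact h b h1
      · right
        refine ⟨a :: w', c', w'', rfl, ?_⟩
        intro b hb
        rcases List.mem_cons.1 hb with h1 | h1
        · rw [h1]; exact ha
        · exact h b h1

theorem run_H {X : Type} {f g : S → X → X} (h : ∀ a, a ∉ Set.range p → g a = f a) {w : List S}
    (hw : IsH p w) (x : X) : run g w x = run f w x := by
  induction w generalizing x with
  | nil => rfl
  | cons a w ih =>
    rw [run_cons, run_cons, h a (hw a List.mem_cons_self),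
      ih fun b hb => hw b (List.mem_cons_of_mem _ hb)]

end Words

section Fields

variable {S X : Type} {β : S → S} {p : Bit → S} {f : S → X → X} {s : X → Sk}

theorem hf_le (β : S → S) (p : Bit → S) (f : S → X → X) (s : X → Sk) (z : Bit) :
    sig f s {w | Red β w ∧ IsH p w} ≤ sig f s (Side β (p z)) := by
  refine sig_mono' f s ?_
  rintro w ⟨h1, h2⟩
  refine ⟨h1, ?_⟩
  intro hc
  have : p z ∈ w := List.mem_of_mem_head? hc
  exact h2 _ this ⟨z, rfl⟩

theorem run_hf {δ : Bit} (hF : Fr β p δ) (hf : ∀ a x, f (β a) (f a x) = x) (s : X → Sk)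
    {u : List S} (hu : IsH p u) :
    @Measurable X X (sig f s {w | Red β w ∧ IsH p w}) (sig f s {w | Red β w ∧ IsH p w})
      (run f u) := by
  refine run_sig f s _ _ u ?_
  rintro w ⟨h1, h2⟩
  refine ⟨red β (u ++ w), ⟨red_Red _ _, isH_red (isH_append hu h2)⟩, fun x => ?_⟩
  rw [run_red hf, run_append]

theorem run_side (hF : Fr β p 0) (s : X → Sk) {u : List S} (hr : Red β u) (hu : IsH p u) (z z' : Bit)
    (h : ¬ (u = [] ∧ z' = z)) :
    @Measurable X X (sig f s (Side β (p z))) (sig f s (Side β (p (z' + 1))))
      (run f (u ++ [p z'])) := by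
  refine run_sig f s _ _ _ ?_
  rintro w ⟨h1, h2⟩
  refine ⟨u ++ p z' :: w, ⟨red_mid hF hr hu z' h1 (by rwa [add_zero]), head_mid hu z z' hF.inj h⟩,
    fun x => ?_⟩
  rw [← run_append, List.append_assoc]
  rfl

end Fields

theorem loc : S_LOC := by
  classical
  intro S _ βZ βD p X mX μ _ f g s K K' G hE w
  have hfz := hE.sysZ.inv
  have h2 : ∀ z : Bit, z + 1 + 1 = z := by decide
  have hRg : ∀ (w : List S), ∀ x ∈ G, run f w x ∈ G := by
    intro w
    induction w with
    | nil => exact fun x hx => hx
    | cons a w ih => exact fun x hx => ih _ (hE.G_f a x hx)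
  induction hn : w.length using Nat.strong_induction_on generalizing w with
  | _ n ih =>
  intro z c hw hwc
  rcases decomp p w with hH | ⟨w', c', w'', rfl, hH⟩
  · refine ⟨fun x => red βZ (K z c x ++ w), ?_, fun x => red_Red _ _, ?_, ?_⟩
    · have h1 : @Measurable X (List S) (sig f s (Side βZ (p z))) ⊤ (K z c) :=
        (hE.K_meas z c).mono (hf_le βZ p f s z) le_rfl
      exact (@measurable_from_top _ _ ⊤ fun k => red βZ (k ++ w)).comp h1
    · intro x hc
      have h3 : p z ∈ red βZ (K z c x ++ w) := List.mem_of_mem_head? hc
      exact isH_red (isH_append (hE.K_H z c x).2 hH) _ h3 ⟨z, rfl⟩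
    · intro x _ _
      rw [run_red hfz, run_append, run_H hE.g_H hH]
  · have hw1 : Red βD (p c' :: w'') := hw.right
    have hw2 : Red βD w'' := List.IsChain.tail hw1
    have hh2 : w''.head? ≠ some (p c') := by
      cases w'' with
      | nil => simp
      | cons b w'' =>
        have h3 := (List.isChain_cons_cons.1 hw1).1
        rw [hE.frD.bp, h2] at h3
        intro h4
        exact h3 (by simpa using h4)
    have hlen : w''.length < n := by
      rw [← hn, List.length_append, List.length_cons]
      omega
    choose U hU1 hU2 hU3 hU4 using fun z' : Bit => ih w''.length hlen w'' rfl (z' + 1) c' hw2 hh2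
    let v : X → X := fun x => run f (K z c x ++ w') x
    let D : X → List S × Bit × List S := fun x =>
      (K z c x, (s (v x)).2.1 1 c', K' ((s (v x)).2.1 1 c') c' (v x))
    let u1 : List S × Bit × List S → List S := fun d => red βZ (d.1 ++ w' ++ d.2.2)
    let good : List S × Bit × List S → Prop := fun d => IsH p (u1 d) ∧ ¬ (u1 d = [] ∧ d.2.1 = z)
    let W : List S × Bit × List S → X → List S := fun d x =>
      if good d then u1 d ++ p d.2.1 :: U d.2.1 (run f (u1 d ++ [p d.2.1]) x) else []
    have hred : ∀ d x, Red βZ (W d x) := by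
      intro d x
      by_cases hg : good d
      · simp only [W, if_pos hg]
        refine red_mid hE.frZ (red_Red _ _) hg.1 d.2.1 (hU2 _ _) ?_
        rw [add_zero]
        exact hU3 _ _
      · simp only [W, if_neg hg]
        exact List.isChain_nil
    have hhead : ∀ d x, (W d x).head? ≠ some (p z) := by
      intro d x
      by_cases hg : good d
      · simp only [W, if_pos hg]
        exact head_mid hg.1 z d.2.1 hE.frZ.inj hg.2
      · simp only [W, if_neg hg]
        simp
    refine ⟨fun x => W (D x) x, ?_, fun x => hred _ x, fun x => hhead _ x, ?_⟩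
    · refine meas_of_sets _ _ fun t => sets_glue _ D W ?_ ?_ t
      · rintro ⟨k, ζ, k'⟩
        by_cases hk : IsH p k
        · have h3 : {x | D x = (k, ζ, k')} = {x | K z c x = k} ∩
              ({x | (s (run f (k ++ w') x)).2.1 1 c' = ζ} ∩
                {x | K' ζ c' (run f (k ++ w') x) = k'}) := by
            ext x
            simp only [D, v, Set.mem_ofPred_eq, Set.mem_inter_iff, Prod.mk.injEq]
            constructor
            · rintro ⟨rfl, rfl, h5⟩
              exact ⟨rfl, rfl, h5⟩
            · rintro ⟨rfl, rfl, h5⟩
              exact ⟨rfl, rfl, h5⟩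
          rw [h3]
          refine hf_le βZ p f s z _ ?_
          refine MeasurableSet.inter (sets_of_meas _ _ (hE.K_meas z c) k) ?_
          refine MeasurableSet.inter ?_ ?_
          · have h4 : @Measurable X Sk (sig f s {w | Red βZ w ∧ IsH p w}) _
                (fun x => s (run f (red βZ (k ++ w')) x)) :=
              meas_sig f s (Q := {w | Red βZ w ∧ IsH p w})
                ⟨red_Red _ _, isH_red (isH_append hk hH)⟩
            simp only [run_red hfz] at h4
            have h5 : Measurable fun a : Sk => a.2.1 1 c' := by fun_prop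
            exact (h5.comp h4) (measurableSet_singleton ζ)
          · have h4 := run_hf hE.frZ hfz s (isH_append hk hH)
            exact sets_of_meas _ _ ((hE.K'_meas ζ c').comp h4) k'
        · have h3 : {x | D x = (k, ζ, k')} = ∅ := by
            ext x
            simp only [Set.mem_ofPred_eq, Set.mem_empty_iff_false, iff_false]
            intro h4
            have h5 : K z c x = k := congrArg Prod.fst h4
            exact hk (h5 ▸ (hE.K_H z c x).2)
          rw [h3]
          exact @MeasurableSet.empty X (sig f s (Side βZ (p z)))
      · intro d b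
        by_cases hg : good d
        · simp only [W, if_pos hg]
          have h4 := run_side (f := f) hE.frZ s (red_Red βZ _) hg.1 z d.2.1 hg.2
          have h5 := (hU1 d.2.1).comp h4
          exact sets_of_meas _ _
            ((@measurable_from_top _ _ ⊤ fun l => u1 d ++ p d.2.1 :: l).comp h5) b
        · simp only [W, if_neg hg]
          exact @MeasurableSet.const X (sig f s (Side βZ (p z))) _
    · intro x hx hxc
      have hv : v x ∈ G := hRg _ x hx
      have hvz : (s (v x)).2.1 1 c' = (D x).2.1 := rfl
      set z' := (D x).2.1 with hz'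
      have hK' : (D x).2.2 = K' z' c' (v x) := rfl
      obtain ⟨ht1, ht2⟩ := hE.th' z' c' (v x) hv hvz
      set x1 := run f (K' z' c' (v x)) (v x) with hx1
      have hx1G : x1 ∈ G := hRg _ _ hv
      have hrun1 : run f (u1 (D x)) x = x1 := by
        show run f (red βZ (K z c x ++ w' ++ K' z' c' (v x))) x = x1
        rw [run_red hfz, run_append]
      have hback : run f (K z' c' x1) x1 = v x := by
        rw [ht2, hx1]
        exact run_invw hfz _ _
      have hg : good (D x) := by
        refine ⟨isH_red (isH_append (isH_append (hE.K_H z c x).2 hH)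
          (hE.K'_H _ _ _).2), ?_⟩
        rintro ⟨h3, h4⟩
        rw [← hz'] at h4
        rw [h3] at hrun1
        have h5 : x = x1 := hrun1
        have h6 : c' = c := by
          rw [← ht1, ← h5, h4, hxc]
        have h7 : run f w' (run f (K z c x) x) = run f (K z c x) x := by
          rw [← run_append]
          show v x = _
          rw [← hback, ← h5, h4, h6]
        have h8 : Red βZ w' := by
          have h9 : Red βD w' := hw.left
          have h10 : ∀ u : List S, IsH p u → Red βD u → Red βZ u := by
            intro u hu hr
            induction u with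
            | nil => exact List.isChain_nil
            | cons a u ihu =>
              cases u with
              | nil => exact List.isChain_singleton _
              | cons b u =>
                obtain ⟨h11, h12⟩ := List.isChain_cons_cons.1 hr
                refine List.isChain_cons_cons.2 ⟨?_, ihu (fun e he => hu e (List.mem_cons_of_mem _ he)) h12⟩
                rw [hE.βeq a (hu a List.mem_cons_self)]
                exact h11
          exact h10 w' hH h9
        have h11 : w' = [] := hE.free _ (hRg _ x hx) w' h8 hH h7
        apply hwc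
        rw [h11, h6]
        rfl
      have hW : W (D x) x = u1 (D x) ++ p z' :: U z' (run f (u1 (D x) ++ [p z']) x) := by
        simp only [W, if_pos hg]
        rfl
      show run g (w' ++ p c' :: w'') (run f (K z c x) x) = run f (W (D x) x) x
      rw [hW]
      set y := f (p z') x1 with hy
      have hyG : y ∈ G := hE.G_f _ _ hx1G
      have hrun2 : run f (u1 (D x) ++ [p z']) x = y := by
        rw [run_append, hrun1]
        rfl
      have hyc : (s y).2.1 0 (z' + 1) = c' := by
        rw [hy, hE.edge x1 hx1G z', ht1]
      have h12 := hU4 z' y hyG hyc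
      rw [hrun2]
      have h13 : u1 (D x) ++ p z' :: U z' y = (u1 (D x) ++ [p z']) ++ U z' y := by simp
      rw [h13, run_append (u1 (D x) ++ [p z']) (U z' y), hrun2, ← h12, run_append w', run_cons,
        run_H hE.g_H hH]
      congr 1
      have h14 : run f w' (run f (K z c x) x) = v x := by rw [← run_append]
      rw [h14]
      exact hE.g_P c' (v x) hv z' hvz.symm y rfl

end Pool.Agent.Helper79.OB
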