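import Pool.Agent.Helper79.OB.AsmA
import Pool.Agent.Helper79.OB.AsmC
import Pool.Agent.Helper79.OB.LOC

/-!
Project OB (MP_fc0446_an): the final theorem without hypotheses.
-/

namespace Pool.Agent.Helper79.OB

theorem top : Final := fin (step loc)

end Pool.Agent.Helper79.OB
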